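import Mathlib.Data.Fintype.Basic
import Mathlib.Order.SymmDiff
import Mathlib.Tactic

set_option autoImplicit false

/-!
# A finite additive poset without a rank

The underlying group consists of the numbers `0, …, 15` with bitwise exclusive or as addition (so
it is isomorphic to `(ℤ/2)^4`). The order is generated by `0 ≤ v` for all `v` and the relations
`2, 5 ≤ 7`, `3, 11 ≤ 8`, `4, 13 ≤ 9`, `10, 12 ≤ 6`.
-/

namespace Pool.Agent.Results.MP_efcf90_co.NoRank

/-- The two axioms of an additive poset. -/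
def IsAdditivePoset (A : Type) [AddCommGroup A] [PartialOrder A] : Prop :=
  (∀ a b c : A, b ≤ a → c ≤ a → b + c ≤ a) ∧ (∀ a b c : A, a ≤ b → a ≤ c → a ≤ a + b + c)

/-- The alternating sum `∑_{∅ ≠ J ⊆ K} (-1)^(|J|+1) r(∑_{a ∈ J} a)`. -/
def altSum {A : Type} [AddCommGroup A] (r : A → ℕ) (K : Finset A) : ℤ :=
  ∑ J ∈ K.powerset with J.Nonempty, (-1) ^ (J.card + 1) * (r (∑ a ∈ J, a) : ℤ)

/-- `r` is a rank of the additive poset `A`. Two elements `a`, `b` are independent when
`a ≤ a + b`. -/
structure IsRank {A : Type} [AddCommGroup A] [PartialOrder A] (r : A → ℕ) : Prop where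
  /-- condition 1 -/
  eq_zero_iff : ∀ a : A, r a = 0 ↔ a = 0
  /-- condition 2 -/
  add_of_independent : ∀ a b : A, a ≤ a + b → r (a + b) = r a + r b
  /-- condition 3 -/
  altSum_nonneg_dvd : ∀ K : Finset A, K.Nonempty →
    0 ≤ altSum r K ∧ (2 : ℤ) ^ (K.card - 1) ∣ altSum r K

/-- bitwise exclusive or on the numbers `0, …, 15` -/
def xor (a b : Fin 16) : Fin 16 :=
  ⟨a.val ^^^ b.val, Nat.xor_lt_two_pow (n := 4) a.isLt b.isLt⟩

/-- the nontrivial relations -/
def rel : List (ℕ × ℕ) := [(2, 7), (5, 7), (3, 8), (11, 8), (4, 9), (13, 9), (10, 6), (12, 6)]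

/-- the order relation: `0 ≤ a`, `a ≤ a`, and the relations above -/
def leRel (a b : Fin 16) : Prop := a.val = 0 ∨ a = b ∨ (a.val, b.val) ∈ rel

instance : DecidableRel leRel := fun _ _ => by unfold leRel; infer_instance

theorem leRel_trans : ∀ a b c : Fin 16, leRel a b → leRel b c → leRel a c := by decide +kernel

theorem leRel_antisymm : ∀ a b : Fin 16, leRel a b → leRel b a → a = b := by decide +kernel

theorem axiom1 : ∀ a b c : Fin 16, leRel b a → leRel c a → leRel (xor b c) a := by
  decide +kernel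

theorem axiom2 : ∀ a b c : Fin 16, leRel a b → leRel a c → leRel a (xor (xor a b) c) := by
  decide +kernel

/-- the numbers `0, …, 15`, with exclusive or as addition and with the order `leRel` -/
@[ext] structure V where
  /-- the number of the element -/
  num : Fin 16
deriving DecidableEq

/-- the element with number `n` -/
def el (n : Fin 16) : V := ⟨n⟩

instance : Finite V :=
  Finite.of_injective V.num (fun _ _ h => V.ext h)

instance : Zero V := ⟨⟨0⟩⟩
instance : Add V := ⟨fun a b => ⟨xor a.num b.num⟩⟩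
instance : Neg V := ⟨fun a => a⟩

theorem add_num (a b : V) : (a + b).num = xor a.num b.num := rfl
theorem zero_num : (0 : V).num = 0 := rfl
theorem neg_num (a : V) : (-a).num = a.num := rfl

theorem xor_assoc' (a b c : Fin 16) : xor (xor a b) c = xor a (xor b c) :=
  Fin.ext (Nat.xor_assoc a.val b.val c.val)
theorem xor_comm' (a b : Fin 16) : xor a b = xor b a :=
  Fin.ext (Nat.xor_comm a.val b.val)
theorem zero_xor' (a : Fin 16) : xor 0 a = a :=
  Fin.ext (Nat.zero_xor a.val)
theorem xor_self' (a : Fin 16) : xor a a = 0 :=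
  Fin.ext (Nat.xor_self a.val)

instance : AddCommGroup V where
  add_assoc a b c := V.ext (by simp only [add_num]; exact xor_assoc' _ _ _)
  zero_add a := V.ext (by simp only [add_num, zero_num]; exact zero_xor' _)
  add_zero a := V.ext (by simp only [add_num, zero_num]; rw [xor_comm']; exact zero_xor' _)
  nsmul := nsmulRec
  zsmul := zsmulRec
  neg_add_cancel a := V.ext (by simp only [add_num, zero_num, neg_num]; exact xor_self' _)
  add_comm a b := V.ext (by simp only [add_num]; exact xor_comm' _ _)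

instance : PartialOrder V where
  le a b := leRel a.num b.num
  le_refl a := Or.inr (Or.inl rfl)
  le_trans a b c := leRel_trans a.num b.num c.num
  le_antisymm a b h k := V.ext (leRel_antisymm a.num b.num h k)

theorem el_add (a b : Fin 16) : el a + el b = el (xor a b) := rfl

theorem el_inj {a b : Fin 16} : el a = el b ↔ a = b :=
  ⟨fun h => congrArg V.num h, fun h => congrArg el h⟩

/-- The alternating sum for a set of four distinct elements. -/
theorem altSum_four (r : V → ℕ) (h0 : r 0 = 0) (a b c d : Fin 16)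
    (h : a ≠ b ∧ a ≠ c ∧ a ≠ d ∧ b ≠ c ∧ b ≠ d ∧ c ≠ d) :
    altSum r {el a, el b, el c, el d} =
      (r (el a) : ℤ) + r (el b) + r (el c) + r (el d)
      - r (el (xor a b)) - r (el (xor a c)) - r (el (xor a d))
      - r (el (xor b c)) - r (el (xor b d)) - r (el (xor c d))
      + r (el (xor a (xor b c))) + r (el (xor a (xor b d))) + r (el (xor a (xor c d)))
      + r (el (xor b (xor c d)))
      - r (el (xor a (xor b (xor c d)))) := by
  obtain ⟨hab, hac, had, hbc, hbd, hcd⟩ := h
  have e : altSum r {el a, el b, el c, el d} =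
      ∑ J ∈ ({el a, el b, el c, el d} : Finset V).powerset,
        (-1) ^ (J.card + 1) * (r (∑ a ∈ J, a) : ℤ) := by
    unfold altSum
    rw [Finset.sum_filter]
    refine Finset.sum_congr rfl fun J _ => ?_
    split_ifs with hJ
    · rfl
    · rw [Finset.not_nonempty_iff_eq_empty] at hJ
      subst hJ
      simp [h0]
  rw [e]
  have hd : ({el d} : Finset V) = insert (el d) ∅ := rfl
  have n1 : el a ∉ ({el b, el c, el d} : Finset V) := by simp [el_inj, hab, hac, had]
  have n2 : el b ∉ ({el c, el d} : Finset V) := by simp [el_inj, hbc, hbd]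
  have n3 : el c ∉ ({el d} : Finset V) := by simp [el_inj, hcd]
  rw [Finset.sum_powerset_insert n1, Finset.sum_powerset_insert n2, Finset.sum_powerset_insert n2,
    Finset.sum_powerset_insert n3, Finset.sum_powerset_insert n3, Finset.sum_powerset_insert n3,
    Finset.sum_powerset_insert n3, hd]
  simp only [Finset.sum_powerset_insert (Finset.notMem_empty (el d)), Finset.powerset_empty,
    Finset.sum_singleton]
  simp [Finset.card_insert_of_notMem, Finset.sum_insert, el_inj, hab, hac, had, hbc, hbd, hcd,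
    el_add, h0]
  ring

/-- There is a finite additive poset (with 16 elements) which has no rank. -/
theorem result : ∃ (A : Type) (_ : AddCommGroup A) (_ : PartialOrder A),
    Finite A ∧ IsAdditivePoset A ∧ ¬ ∃ r : A → ℕ, IsRank r := by
  refine ⟨V, inferInstance, inferInstance, inferInstance,
    ⟨fun a b c => axiom1 a.num b.num c.num, fun a b c => axiom2 a.num b.num c.num⟩, ?_⟩
  rintro ⟨r, hr⟩
  have h0 : r 0 = 0 := (hr.eq_zero_iff 0).mpr rfl
  have key : ∀ a b c d : Fin 16, (a ≠ b ∧ a ≠ c ∧ a ≠ d ∧ b ≠ c ∧ b ≠ d ∧ c ≠ d) →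
      (0 : ℤ) ≤ (r (el a) : ℤ) + r (el b) + r (el c) + r (el d)
      - r (el (xor a b)) - r (el (xor a c)) - r (el (xor a d))
      - r (el (xor b c)) - r (el (xor b d)) - r (el (xor c d))
      + r (el (xor a (xor b c))) + r (el (xor a (xor b d))) + r (el (xor a (xor c d)))
      + r (el (xor b (xor c d)))
      - r (el (xor a (xor b (xor c d)))) := by
    intro a b c d h
    rw [← altSum_four r h0 a b c d h]
    exact (hr.altSum_nonneg_dvd _ (Finset.insert_nonempty _ _)).1
  have w1 : (0 : ℤ) ≤
      (r (el 1) : ℤ) + r (el 3) + r (el 5) + r (el 9) - r (el 2) - r (el 4) - r (el 8)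
      - r (el 6) - r (el 10) - r (el 12) + r (el 7) + r (el 11) + r (el 13) + r (el 15)
      - r (el 14) :=
    key 1 3 5 9 (by decide)
  have w2 : (0 : ℤ) ≤
      (r (el 2) : ℤ) + r (el 3) + r (el 6) + r (el 10) - r (el 1) - r (el 4) - r (el 8)
      - r (el 5) - r (el 9) - r (el 12) + r (el 7) + r (el 11) + r (el 14) + r (el 15)
      - r (el 13) :=
    key 2 3 6 10 (by decide)
  have w3 : (0 : ℤ) ≤
      (r (el 1) : ℤ) + r (el 2) + r (el 5) + r (el 9) - r (el 3) - r (el 4) - r (el 8)
      - r (el 7) - r (el 11) - r (el 12) + r (el 6) + r (el 10) + r (el 13) + r (el 14)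
      - r (el 15) :=
    key 1 2 5 9 (by decide)
  have w4 : (0 : ℤ) ≤
      (r (el 4) : ℤ) + r (el 5) + r (el 6) + r (el 12) - r (el 1) - r (el 2) - r (el 8)
      - r (el 3) - r (el 9) - r (el 10) + r (el 7) + r (el 13) + r (el 14) + r (el 15)
      - r (el 11) :=
    key 4 5 6 12 (by decide)
  have w5 : (0 : ℤ) ≤
      (r (el 1) : ℤ) + r (el 3) + r (el 4) + r (el 9) - r (el 2) - r (el 5) - r (el 8)
      - r (el 7) - r (el 10) - r (el 13) + r (el 6) + r (el 11) + r (el 12) + r (el 14)
      - r (el 15) :=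
    key 1 3 4 9 (by decide)
  have w6 : (0 : ℤ) ≤
      (r (el 2) : ℤ) + r (el 3) + r (el 4) + r (el 10) - r (el 1) - r (el 6) - r (el 8)
      - r (el 7) - r (el 9) - r (el 14) + r (el 5) + r (el 11) + r (el 12) + r (el 13)
      - r (el 15) :=
    key 2 3 4 10 (by decide)
  have w7 : (0 : ℤ) ≤
      (r (el 1) : ℤ) + r (el 2) + r (el 4) + r (el 9) - r (el 3) - r (el 5) - r (el 8)
      - r (el 6) - r (el 11) - r (el 13) + r (el 7) + r (el 10) + r (el 12) + r (el 15)
      - r (el 14) :=
    key 1 2 4 9 (by decide)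
  have w8 : (0 : ℤ) ≤
      (r (el 8) : ℤ) + r (el 9) + r (el 10) + r (el 12) - r (el 1) - r (el 2) - r (el 4)
      - r (el 3) - r (el 5) - r (el 6) + r (el 11) + r (el 13) + r (el 14) + r (el 15)
      - r (el 7) :=
    key 8 9 10 12 (by decide)
  have w9 : (0 : ℤ) ≤
      (r (el 1) : ℤ) + r (el 3) + r (el 5) + r (el 8) - r (el 2) - r (el 4) - r (el 9)
      - r (el 6) - r (el 11) - r (el 13) + r (el 7) + r (el 10) + r (el 12) + r (el 14)
      - r (el 15) :=
    key 1 3 5 8 (by decide)
  have w10 : (0 : ℤ) ≤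
      (r (el 2) : ℤ) + r (el 3) + r (el 6) + r (el 8) - r (el 1) - r (el 4) - r (el 10)
      - r (el 5) - r (el 11) - r (el 14) + r (el 7) + r (el 9) + r (el 12) + r (el 13)
      - r (el 15) :=
    key 2 3 6 8 (by decide)
  have w11 : (0 : ℤ) ≤
      (r (el 1) : ℤ) + r (el 2) + r (el 5) + r (el 8) - r (el 3) - r (el 4) - r (el 9)
      - r (el 7) - r (el 10) - r (el 13) + r (el 6) + r (el 11) + r (el 12) + r (el 15)
      - r (el 14) :=
    key 1 2 5 8 (by decide)
  have w12 : (0 : ℤ) ≤
      (r (el 4) : ℤ) + r (el 5) + r (el 6) + r (el 8) - r (el 1) - r (el 2) - r (el 12)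
      - r (el 3) - r (el 13) - r (el 14) + r (el 7) + r (el 9) + r (el 10) + r (el 11)
      - r (el 15) :=
    key 4 5 6 8 (by decide)
  have w13 : (0 : ℤ) ≤
      (r (el 1) : ℤ) + r (el 3) + r (el 4) + r (el 8) - r (el 2) - r (el 5) - r (el 9)
      - r (el 7) - r (el 11) - r (el 12) + r (el 6) + r (el 10) + r (el 13) + r (el 15)
      - r (el 14) :=
    key 1 3 4 8 (by decide)
  have w14 : (0 : ℤ) ≤
      (r (el 2) : ℤ) + r (el 3) + r (el 4) + r (el 8) - r (el 1) - r (el 6) - r (el 10)
      - r (el 7) - r (el 11) - r (el 12) + r (el 5) + r (el 9) + r (el 14) + r (el 15)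
      - r (el 13) :=
    key 2 3 4 8 (by decide)
  have w15 : (0 : ℤ) ≤
      (r (el 1) : ℤ) + r (el 2) + r (el 4) + r (el 8) - r (el 3) - r (el 5) - r (el 9)
      - r (el 6) - r (el 10) - r (el 12) + r (el 7) + r (el 11) + r (el 13) + r (el 14)
      - r (el 15) :=
    key 1 2 4 8 (by decide)
  have e7 : (r (el 7) : ℤ) = r (el 2) + r (el 5) := by
    have := hr.add_of_independent (el 2) (el 5) (show leRel 2 7 by decide)
    have e : el 2 + el 5 = el 7 := rfl
    rw [e] at this
    exact_mod_cast this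
  have e8 : (r (el 8) : ℤ) = r (el 3) + r (el 11) := by
    have := hr.add_of_independent (el 3) (el 11) (show leRel 3 8 by decide)
    have e : el 3 + el 11 = el 8 := rfl
    rw [e] at this
    exact_mod_cast this
  have e9 : (r (el 9) : ℤ) = r (el 4) + r (el 13) := by
    have := hr.add_of_independent (el 4) (el 13) (show leRel 4 9 by decide)
    have e : el 4 + el 13 = el 9 := rfl
    rw [e] at this
    exact_mod_cast this
  have e6 : (r (el 6) : ℤ) = r (el 10) + r (el 12) := by
    have := hr.add_of_independent (el 10) (el 12) (show leRel 10 6 by decide)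
    have e : el 10 + el 12 = el 6 := rfl
    rw [e] at this
    exact_mod_cast this
  have h1 : (0 : ℤ) < r (el 1) := by
    have h : r (el 1) ≠ 0 := by
      rw [Ne, hr.eq_zero_iff]
      exact fun h => absurd (congrArg V.num h) (by decide)
    exact_mod_cast Nat.pos_of_ne_zero h
  generalize (r (el 1) : ℤ) = x1 at *
  generalize (r (el 2) : ℤ) = x2 at *
  generalize (r (el 3) : ℤ) = x3 at *
  generalize (r (el 4) : ℤ) = x4 at *
  generalize (r (el 5) : ℤ) = x5 at *
  generalize (r (el 6) : ℤ) = x6 at *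
  generalize (r (el 7) : ℤ) = x7 at *
  generalize (r (el 8) : ℤ) = x8 at *
  generalize (r (el 9) : ℤ) = x9 at *
  generalize (r (el 10) : ℤ) = x10 at *
  generalize (r (el 11) : ℤ) = x11 at *
  generalize (r (el 12) : ℤ) = x12 at *
  generalize (r (el 13) : ℤ) = x13 at *
  generalize (r (el 14) : ℤ) = x14 at *
  generalize (r (el 15) : ℤ) = x15 at *
  linarith

end Pool.Agent.Results.MP_efcf90_co.NoRank
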